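import Pool.Agent.W_a2e04a_h82.Main

/-! # Generic simple Hilbert length rigidity in every dimension (MP_a2e04a_gt)

Let `ρ`, `σ` be homomorphisms from the fundamental group of the closed oriented surface of
genus `g` to `SL_d(ℝ)`, `d = r + 1 ≥ 3`, which are loxodromic (eigenvalues of one sign and of
distinct moduli) on simple non-separating loops and transverse on pairs of simple loops which
meet once, properties which all (lifts of) Hitchin representations have. If the simple root
lengths of `ρ γ` are linearly independent over the rationals for every simple non-separating
loop `γ`, and the Hilbert lengths `log (λ_1 / λ_d)` of `ρ` and `σ` agree on all these loops,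
then all eigenvalues of `ρ` and `σ` agree up to sign on all these loops, or all eigenvalues of
`ρ` and of the contragredient of `σ` do.

Proof. For a pair `(α, β)` meeting once, write the matrix of `ρ (β α ^ n)` in an eigenbasis of
`ρ α` as `B D ^ n`. The ratio of the extreme eigenvalues has, as `n` tends to infinity, a
convergent expansion in exponentials of `n`, whose exponents are sums of the logarithms of the
ratios `λ_1 / λ_j` and `λ_j / λ_d`; uniqueness of the coefficients and of the irreducible
elements of the monoid of exponents shows that these ratios agree for `ρ α` and `σ α` as a set,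
and a factorisation test for the coefficients at exponents `a y_i + y_j`, `a = 1, 2, 3`, shows
that either all `λ_1 / λ_j` of `ρ` are such ratios of `σ`, or all are ratios `λ_k / λ_d`. The
alternative is constant on the loops `β α ^ n` for infinitely many `n` by growth, and equality
of infinitely many characteristic polynomials gives equality at `β` itself. -/

namespace Pool.Agent.Results.MP_a2e04a_gt.HilbertRigidity

open Matrix Pool.Agent.W_a2e04a_h82

theorem result {g r : ℕ} (hg : 0 < g) (hr : 2 ≤ r)
    (ρ σ : SurfaceGroup g →* SpecialLinearGroup (Fin (r + 1)) ℝ)
    (hρ : Transverse hg ρ) (hσ : Transverse hg σ) (hgen : Generic hg ρ)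
    (hlen : ∀ γ, Simple hg γ → hilbertLength (ρ γ) = hilbertLength (σ γ)) :
    (∀ γ, Simple hg γ → SameEig (ρ γ) (σ γ)) ∨
      (∀ γ, Simple hg γ → SameEig (ρ γ) (σ γ)⁻¹) :=
  main hr hρ hσ hgen hlen

end Pool.Agent.Results.MP_a2e04a_gt.HilbertRigidity
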